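import Mathlib
import Pool.Agent.Helper35.QG.All

set_option autoImplicit false

/-!
Let `K` be an algebraic extension of `ℚ` (for example a number field) or a field of
characteristic `p > 0` and of transcendence degree at most one over `F_p` (for example the
function field of a curve over a finite field).
Every finitely generated matrix group over `K` embeds in a finitely presented group
with quadratic Dehn function.
-/

namespace Pool.Agent.Results.MP_afe21c_al.GlobalFields

/-- Let `K` be algebraic over `ℚ`, or of characteristic `p` and of transcendence degree at most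
one over `F_p`. Every finitely generated subgroup of `GL_n(K)` embeds injectively into a
group with finite presentation `⟨Fin k ∣ rels⟩` in which every null-homotopic word of length `L`
has area at most `C·L²+C`. -/
theorem result :
    ∀ (K : Type) [Field K],
      ((∃ _ : Algebra ℚ K, Algebra.IsAlgebraic ℚ K) ∨
        ∃ (p : ℕ) (_ : Fact p.Prime) (_ : Algebra (ZMod p) K), Algebra.trdeg (ZMod p) K ≤ 1) →
      ∀ (n : ℕ) (H : Subgroup (Matrix.GeneralLinearGroup (Fin n) K)),
      H.FG →
      ∃ (k : ℕ) (rels : Finset (FreeGroup (Fin k))) (C : ℕ),
        (∀ w : FreeGroup (Fin k),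
          w ∈ Subgroup.normalClosure (rels : Set (FreeGroup (Fin k))) →
          ∃ l : List (FreeGroup (Fin k) × FreeGroup (Fin k)),
            l.length ≤ C * (FreeGroup.norm w) ^ 2 + C ∧
            (∀ p ∈ l, p.2 ∈ rels ∨ p.2⁻¹ ∈ rels) ∧
            w = (l.map (fun p => p.1 * p.2 * p.1⁻¹)).prod) ∧
        ∃ f : H →* PresentedGroup (rels : Set (FreeGroup (Fin k))),
          Function.Injective f := by
  intro K _ hK n H hH
  obtain ⟨k, rels, ⟨C, hC⟩, f, hf⟩ := QG.final K hK n H hH
  exact ⟨k, rels, C, fun w hw => hC w hw, f, hf⟩

end Pool.Agent.Results.MP_afe21c_al.GlobalFields
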